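import Pool.Agent.Helper85_CYD.StG
import Pool.Agent.Helper85_CYD.St1

/-! # Squad CYD, module SQR: the relation for `u(c w) u(c w⁻¹)` -/

set_option autoImplicit false

open Polynomial IsLocalRing

namespace Pool.Agent.CYD.H9

open Pool.Agent.CYD

theorem hom_aeval {R S : Type} [CommRing R] [CommRing S] (φ : R →+* S) (x : R) (f : ℤ[X]) :
    φ (aeval x f) = aeval (φ x) f := by
  rw [aeval_def, aeval_def, hom_eval₂]
  congr 1
  exact RingHom.ext_int _ _

theorem hom_uu {K L : Type} [Field K] [Field L] (φ : K →+* L) (g : ℤ[X]) (x : K) :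
    φ (uu g x) = uu g (φ x) := by
  rw [uu, uu, map_div₀, hom_aeval, hom_aeval]

theorem mem_of_root {K : Type} [Field K] (A : ValuationSubring K) (x : K) (n : ℕ) (hn : 0 < n)
    (h : x ^ n = 1) : x ∈ A := by
  rcases A.mem_or_inv_mem x with h1 | h1
  · exact h1
  · have h2 : x = x⁻¹ ^ (n - 1) := by
      have hx : x ≠ 0 := by
        rintro rfl
        rw [zero_pow hn.ne'] at h
        exact zero_ne_one h
      have h3 : x⁻¹ ^ n = 1 := by rw [inv_pow, h, inv_one]
      obtain ⟨k, rfl⟩ : ∃ k, n = k + 1 := ⟨n - 1, by omega⟩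
      rw [Nat.add_sub_cancel]
      rw [pow_succ] at h3
      exact ((mul_inv_eq_one₀ hx).mp h3).symm
    rw [h2]
    exact pow_mem h1 _

theorem prim_coe {K : Type} [Field K] (A : ValuationSubring K) (x : A) (n : ℕ)
    (h : IsPrimitiveRoot (x : K) n) : IsPrimitiveRoot x n :=
  IsPrimitiveRoot.of_map_of_injective (f := A.subtype) h Subtype.val_injective

theorem prim_mul {M : Type} [CommMonoid M] {x y : M} {a b : ℕ} (hx : IsPrimitiveRoot x a)
    (hy : IsPrimitiveRoot y b) (hab : a.Coprime b) : IsPrimitiveRoot (x * y) (a * b) := by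
  have h := (Commute.all x y).orderOf_mul_eq_mul_orderOf_of_coprime
    (by rw [← hx.eq_orderOf, ← hy.eq_orderOf]; exact hab)
  rw [← hx.eq_orderOf, ← hy.eq_orderOf] at h
  rw [← h]
  exact IsPrimitiveRoot.orderOf _

theorem unit_of_res {K : Type} [Field K] (A : ValuationSubring K) (x : A)
    (h : residue A x ≠ 0) : (x : K) ∈ A ∧ (x : K)⁻¹ ∈ A := by
  refine ⟨x.2, ?_⟩
  have hu : IsUnit x := (residue_ne_zero_iff_isUnit x).mp h
  obtain ⟨y, hy⟩ := hu
  have h1 : (x : K)⁻¹ = ((y⁻¹ : Aˣ) : A) := by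
    have h2 : (x : K) * (((y⁻¹ : Aˣ) : A) : K) = 1 := by
      rw [← hy]
      exact_mod_cast congrArg (Subtype.val) (y.mul_inv)
    exact inv_eq_of_mul_eq_one_right h2
  rw [h1]
  exact Subtype.property _

theorem sqr (hGen : GenStmt) (hTam : TamStmt) (hAbs : AbsStmt) (hAwy : AwyStmt) : SqrStmt := by
  intro n p q g h F K _ _ _ c w hc hw k hk
  have hp1 := F.hp.one_lt
  have hq1 := F.hq.one_lt
  have hcop : p.Coprime q := (Nat.coprime_primes F.hp F.hq).mpr F.hpq
  have hpp : (p - 1).Coprime p := by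
    have h1 : (p - 1).Coprime (p - 1 + 1) :=
      Nat.coprime_self_add_right.mpr (Nat.coprime_one_right _)
    rwa [Nat.sub_add_cancel hp1.le] at h1
  have hpm : ∀ {M : Type} [CommMonoid M] {x : M}, IsPrimitiveRoot x p →
      IsPrimitiveRoot (x ^ (p - 1)) p := fun hx => hx.pow_of_coprime _ hpp
  have hinv : ∀ {M : Type} [CommMonoid M] {x : M}, IsPrimitiveRoot x p →
      (x ^ (p - 1)) ^ (p - 1) = x := by
    intro M _ x hx
    rw [← pow_mul]
    have h1 : (p - 1) * (p - 1) = p * (p - 2) + 1 := by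
      obtain ⟨r, rfl⟩ : ∃ r, p = r + 2 := ⟨p - 2, by omega⟩
      have e1 : r + 2 - 1 = r + 1 := by omega
      have e2 : r + 2 - 2 = r := by omega
      rw [e1, e2]
      ring
    rw [h1, pow_succ, pow_mul, hx.pow_eq_one, one_pow, one_mul]
  refine hGen p q F.hp F.hq F.hp2 F.hq2 F.hpq K (fun x y => uu g (x * y) * uu g (x * y ^ (p - 1)))
    (fun A c => 2 * ex A g q c) ?_ ?_ ?_ ?_ c w hc hw k hk
  · intro σ x y
    have hs : ∀ x : K, σ (uu g x) = uu g (σ x) := fun x => hom_uu (σ : K →+* K) g x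
    simp only [map_mul, map_pow, hs]
  · intro φ c w hc hw
    have h1 := (hAbs n g h F.toFg K (c * w) (by
      rw [F.hn, mul_comm p q]
      exact prim_mul hc hw hcop.symm)).2.2 φ
    have h2 := (hAbs n g h F.toFg K (c * w ^ (p - 1)) (by
      rw [F.hn, mul_comm p q]
      exact prim_mul hc (hpm hw) hcop.symm)).2.2 φ
    simp only [map_mul, norm_mul, h1, h2, mul_one]
  · intro A hpu c w hc hw
    obtain ⟨c', hc'⟩ : ∃ c' : A, (c' : K) = c := ⟨⟨c, mem_of_root A c q (by omega) hc.pow_eq_one⟩, rfl⟩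
    obtain ⟨w', hw'⟩ : ∃ w' : A, (w' : K) = w := ⟨⟨w, mem_of_root A w p (by omega) hw.pow_eq_one⟩, rfl⟩
    subst hc' hw'
    have hcA := prim_coe A c' q hc
    have hwA := prim_coe A w' p hw
    by_cases hqu : IsUnit (q : A)
    · have hnu : IsUnit (n : A) := by
        rw [F.hn, Nat.cast_mul]
        exact hpu.mul hqu
      have key : ∀ x : A, IsPrimitiveRoot x n → ∃ y : A, residue A y ≠ 0 ∧ uu g (x : K) = (y : K) := by
        intro x hx
        obtain ⟨h1, h2⟩ := hAwy n g h F.toFg K A x hnu hx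
        obtain ⟨a, ha⟩ := h1
        obtain ⟨b, hb⟩ := h2
        refine ⟨b * ((a⁻¹ : Aˣ) : A), ?_, ?_⟩
        · rw [residue_ne_zero_iff_isUnit]
          exact b.isUnit.mul (a⁻¹).isUnit
        · have e1 : ((aeval x g : A) : K) = aeval (x : K) g := hom_aeval A.subtype x g
          have e2 : ((aeval x g.reverse : A) : K) = aeval (x : K) g.reverse :=
            hom_aeval A.subtype x g.reverse
          have e3 : (((a⁻¹ : Aˣ) : A) : K) = ((a : A) : K)⁻¹ := by
            have h3 : ((a : A) : K) * (((a⁻¹ : Aˣ) : A) : K) = 1 := by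
              exact_mod_cast congrArg (Subtype.val) (a.mul_inv)
            exact (inv_eq_of_mul_eq_one_right h3).symm
          rw [uu, ← e1, ← e2, ← ha, ← hb, div_eq_mul_inv, ← e3]
          rfl
      obtain ⟨y₁, h1, h2⟩ := key (c' * w') (by
        rw [F.hn, mul_comm p q]
        exact prim_mul hcA hwA hcop.symm)
      obtain ⟨y₂, h3, h4⟩ := key (c' * w' ^ (p - 1)) (by
        rw [F.hn, mul_comm p q]
        exact prim_mul hcA (hpm hwA) hcop.symm)
      have h5 := unit_of_res A (y₁ * y₂) (by rw [map_mul]; exact mul_ne_zero h1 h3)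
      have h6 : uu g ((c' : K) * (w' : K)) * uu g ((c' : K) * (w' : K) ^ (p - 1)) =
          ((y₁ * y₂ : A) : K) := by
        push_cast at h2 h4 ⊢
        rw [h2, h4]
      simp only [h6]
      exact h5
    · have hqm : (q : A) ∈ maximalIdeal A := (mem_maximalIdeal _).mpr hqu
      have L1 : Loc q p A w' c' := ⟨hqm, hwA, hcA⟩
      have L2 : Loc q p A (w' ^ (p - 1)) c' := ⟨hqm, hpm hwA, hcA⟩
      obtain ⟨C₁, hC₁, T₁⟩ := hTam n q p g h F.symm K A w' c' L1
      obtain ⟨C₂, hC₂, T₂⟩ := hTam n q p g h F.symm K A (w' ^ (p - 1)) c' L2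
      have hq1' : ¬ q ∣ 1 := by
        intro h1
        have := Nat.le_of_dvd one_pos h1
        omega
      obtain ⟨θ₁, a1, a2⟩ := T₁ 1 hq1'
      obtain ⟨θ₂, b1, b2⟩ := T₂ 1 hq1'
      have hex : ex A g p (w' ^ (p - 1)) = - ex A g p w' := by
        rw [ex, ex, hinv hwA]
        ring
      rw [pow_one] at a2 b2
      rw [hex] at b1 b2
      have hc1 : (c' : K) - 1 ≠ 0 := by
        rw [sub_ne_zero]
        exact hc.ne_one hq1
      have h6 : uu g ((c' : K) * (w' : K)) * uu g ((c' : K) * (w' : K) ^ (p - 1)) =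
          ((θ₁ * θ₂ : A) : K) := by
        have e1 : ((w' ^ (p - 1) : A) : K) = (w' : K) ^ (p - 1) := by push_cast; rfl
        rw [e1] at b2
        rw [mul_comm (c' : K) (w' : K), mul_comm (c' : K) ((w' : K) ^ (p - 1)), a2, b2]
        push_cast
        rw [mul_mul_mul_comm, ← zpow_add₀ hc1, add_neg_cancel, zpow_zero, one_mul]
      simp only [h6]
      refine unit_of_res A (θ₁ * θ₂) ?_
      rw [map_mul, a1, b1]
      simp only [Nat.cast_one, one_zpow, one_mul]
      exact mul_ne_zero hC₁ hC₂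
  · intro A c w L
    obtain ⟨C, hC, T⟩ := hTam n p q g h F K A c w L
    refine ⟨(-1) ^ (ex A g q c) * (C * C), ?_, fun k hk => ?_⟩
    · exact mul_ne_zero (zpow_ne_zero _ (neg_ne_zero.mpr one_ne_zero)) (mul_ne_zero hC hC)
    have hk2 : ¬ p ∣ k * (p - 1) := by
      intro h1
      rcases (Nat.Prime.dvd_mul F.hp).mp h1 with h2 | h2
      · exact hk h2
      · have := Nat.le_of_dvd (by omega) h2
        omega
    obtain ⟨θ₁, a1, a2⟩ := T k hk
    obtain ⟨θ₂, b1, b2⟩ := T (k * (p - 1)) hk2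
    refine ⟨θ₁ * θ₂, ?_, ?_⟩
    · have hp0 : (p : ResidueField A) = 0 := by
        have h1 : residue A (p : A) = 0 := (residue_eq_zero_iff _).mpr L.hm
        rwa [map_natCast] at h1
      have h2 : ((k * (p - 1) : ℕ) : ResidueField A) = k * (-1) := by
        rw [Nat.cast_mul, Nat.cast_sub hp1.le, hp0, Nat.cast_one, zero_sub]
      rw [map_mul, a1, b1, h2, mul_zpow, mul_comm (2 : ℤ), zpow_mul]
      have h3 : ∀ x : ResidueField A, x ^ (2 : ℤ) = x * x := fun x => by
        rw [zpow_ofNat, sq]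
      rw [h3]
      ring
    · have h3 : ∀ x : K, x ^ (2 : ℤ) = x * x := fun x => by
        rw [zpow_ofNat, sq]
      rw [← pow_mul, a2, b2, mul_comm (2 : ℤ), zpow_mul, h3]
      push_cast
      ring

end Pool.Agent.CYD.H9
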